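import Pool.Agent.N486.SR.Meta1

set_option autoImplicit false

universe u

namespace Pool.Agent.Results.MP_03f7b8_gt.MetacompactCriterion

open Set TopologicalSpace Pool.Agent.N486.SR

/-- An arbitrary space with a base of subinfinite rank is metacompact if and only if every nonempty
open set `E` that is not the union of two proper open subsets is contained in every neighbourhood
of some point of the space. -/
theorem result (X : Type u) [TopologicalSpace X] (B : Set (Set X)) (hB : IsTopologicalBasis B)
    (hr : SubinfiniteRank B) :
    Metacompact X ↔ ∀ E : Set X, IsOpen E → E.Nonempty →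
      (∀ O₁ O₂ : Set X, IsOpen O₁ → IsOpen O₂ → O₁ ∪ O₂ = E → O₁ = E ∨ O₂ = E) →
      ∃ z : X, ∀ U : Set X, IsOpen U → z ∈ U → E ⊆ U :=
  metacompact_iff hB hr

end Pool.Agent.Results.MP_03f7b8_gt.MetacompactCriterion
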