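import Pool.Agent.N486.SR.Meta1
import Pool.Agent.N486.SR.Counter

set_option autoImplicit false

universe u

namespace Pool.Agent.Results.MP_03f7b8_gt.SubinfiniteRankMetacompact

open Set TopologicalSpace Pool.Agent.N486.SR

/-- Q1: every `R₀` space (in particular every `T₁` space and every regular space) with a base of
subinfinite rank is metacompact, and so is each of its subspaces; without such a separation axiom
this fails, already for a `T₀` space. -/
theorem result :
    (∀ (X : Type u) [TopologicalSpace X] [R0Space X] (B : Set (Set X)),
      IsTopologicalBasis B → SubinfiniteRank B → ∀ Y : Set X, Metacompact Y) ∧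
    (∃ (X : Type) (_ : TopologicalSpace X) (B : Set (Set X)), T0Space X ∧
      IsTopologicalBasis B ∧ SubinfiniteRank B ∧ ¬ Metacompact X) :=
  ⟨fun _ _ _ _ hB hr Y => metacompact_r0 hB hr Y, counter⟩

end Pool.Agent.Results.MP_03f7b8_gt.SubinfiniteRankMetacompact
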